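import Pool.Agent.TH926.OSC.Main

set_option autoImplicit false

/-!
The number of cycles of bounded oscillation with at most `P` elements.
-/

namespace Pool.Agent.TH926.OSC

open Finset Pool.Agent.H319R2 Pool.Agent.H547R3 Filter

/-- the elements are polynomially bounded in the length -/
lemma elements_le {B : ℝ} (hB3 : 3 ≤ B) : ∃ D : ℝ, 1 ≤ D ∧ ∀ Z : Finset ℤ, Osc B Z → ∀ x ∈ Z,
    |(x : ℝ)| ≤ D * (Z.card : ℝ) ^ 14 := by
  obtain ⟨D, hD1, hD⟩ := min_bound
  refine ⟨B * D, by nlinarith, ?_⟩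
  intro Z hZ x hx
  obtain ⟨x0, hx0, h1, hmin, hx0r⟩ := hZ.min
  have hper : T^[Z.card] x0 = x0 := by
    obtain ⟨z, hz, hpos, hset, hcard, -, -⟩ := hZ.1.normal
    obtain ⟨j, hj⟩ := hZ.1.back hz hx0
    rw [hcard, ← hj, ← Function.iterate_add_apply, Nat.add_comm, Function.iterate_add_apply,
      Function.iterate_minimalPeriod]
  have h2 := hD x0 Z.card hZ.1.card_pos (hZ.ne_zero hx0) hper (fun j => hmin _ (hZ.1.closed hx0 j))
  calc |(x : ℝ)| ≤ B * |(x0 : ℝ)| := (hx0r x hx).2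
    _ ≤ B * (D * (Z.card : ℝ) ^ 14) := mul_le_mul_of_nonneg_left h2 (by linarith)
    _ = B * D * (Z.card : ℝ) ^ 14 := by ring

/-- the number of cycles of bounded oscillation with at most `P` elements -/
theorem count_len {B γ : ℝ} (hB3 : 3 ≤ B) (hB : Real.log B / Real.log 3 - 1 < γ)
    (hγ : 1 < 14 * γ) :
    ∃ C : ℝ, 0 < C ∧ ∀ P : ℕ, 1 ≤ P → ∀ F : Finset (Finset ℤ),
      (∀ Z ∈ F, Osc B Z ∧ Z.card ≤ P) → (F.card : ℝ) ≤ C * (P : ℝ) ^ (14 * γ - 1) := by
  classical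
  obtain ⟨C, hC, hcnt⟩ := count hB3 hB
  obtain ⟨D, hD1, hD⟩ := elements_le hB3
  have hγ0 : 0 < γ := by linarith
  set e : ℝ := 14 * γ - 1 with he
  have he0 : 0 < e := by rw [he]; linarith
  set r : ℝ := 2 ^ e with hr
  have hr1 : 1 < r := Real.one_lt_rpow (by norm_num) he0
  set A : ℝ := C * D ^ γ * 2 ^ (14 * γ) with hA
  have hA0 : 0 < A := by positivity
  refine ⟨A * (r / (r - 1)), by have : 0 < r - 1 := by linarith
                                positivity, ?_⟩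
  intro P hP F hF
  set G : ℕ → Finset (Finset ℤ) := fun j => F.filter fun Z => Nat.log 2 Z.card = j with hG
  have hGc : ∀ j : ℕ, ((G j).card : ℝ) ≤ A * r ^ j := by
    intro j
    have hdisj : ((G j : Finset (Finset ℤ)) : Set (Finset ℤ)).PairwiseDisjoint id := by
      intro Z hZ Z' hZ' hne
      rw [Function.onFun, disjoint_left]
      intro y hy hy'
      have h1 := (mem_filter.1 (mem_coe.1 hZ)).1
      have h2 := (mem_filter.1 (mem_coe.1 hZ')).1
      exact hne ((hF Z h1).1.1.eq_of_mem (hF Z' h2).1.1 hy hy')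
    have hlow : ∀ Z ∈ G j, (2 : ℝ) ^ j ≤ Z.card ∧ (Z.card : ℝ) ≤ 2 ^ (j + 1) := by
      intro Z hZ
      obtain ⟨hZF, hj⟩ := mem_filter.1 hZ
      have hpos := (hF Z hZF).1.1.card_pos
      have h1 := Nat.pow_log_le_self 2 hpos.ne'
      have h2 := Nat.lt_pow_succ_log_self (b := 2) (by norm_num) Z.card
      rw [hj] at h1 h2
      exact ⟨by exact_mod_cast h1, by exact_mod_cast h2.le⟩
    have hX1 : (1 : ℝ) ≤ D * (2 ^ (j + 1)) ^ 14 := by
      have h1 : (1 : ℝ) ≤ (2 ^ (j + 1)) ^ 14 := one_le_pow₀ (one_le_pow₀ (by norm_num))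
      nlinarith
    have h1 := hcnt _ hX1 ((G j).biUnion id) (by
      intro x hx
      rw [mem_biUnion] at hx
      obtain ⟨Z, hZ, hxZ⟩ := hx
      have hZF := (mem_filter.1 hZ).1
      refine ⟨(hD Z (hF Z hZF).1 x hxZ).trans ?_, Z, (hF Z hZF).1, hxZ⟩
      apply mul_le_mul_of_nonneg_left _ (by linarith)
      exact pow_le_pow_left₀ (Nat.cast_nonneg _) (hlow Z hZ).2 14)
    rw [card_biUnion (fun Z hZ Z' hZ' hne => hdisj (mem_coe.2 hZ) (mem_coe.2 hZ') hne)] at h1
    have h2 : ((G j).card : ℝ) * 2 ^ j ≤ ((∑ Z ∈ G j, (id Z).card : ℕ) : ℝ) := by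
      push_cast
      rw [← nsmul_eq_mul, ← sum_const]
      exact sum_le_sum fun Z hZ => (hlow Z hZ).1
    have h3 : (D * (2 ^ (j + 1)) ^ 14) ^ γ = D ^ γ * (2 ^ (14 * γ) * (r ^ j * 2 ^ j)) := by
      rw [Real.mul_rpow (by linarith) (by positivity)]
      congr 1
      have h4 : (((2 : ℝ) ^ (j + 1)) ^ 14) ^ γ = 2 ^ (((j + 1 : ℕ) : ℝ) * 14 * γ) := by
        rw [← Real.rpow_natCast (2 : ℝ) (j + 1), ← Real.rpow_natCast _ 14,
          ← Real.rpow_mul (by positivity), ← Real.rpow_mul (by norm_num)]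
        congr 1
        push_cast
        ring
      have h5 : r ^ j * 2 ^ j = (2 : ℝ) ^ ((j : ℝ) * 14 * γ) := by
        rw [hr, ← Real.rpow_natCast, ← Real.rpow_natCast, ← Real.rpow_mul (by norm_num),
          ← Real.rpow_add (by norm_num), he]
        congr 1
        ring
      rw [h4, h5, ← Real.rpow_add (by norm_num)]
      congr 1
      push_cast
      ring
    rw [h3] at h1
    have h6 : ((G j).card : ℝ) * 2 ^ j ≤ (A * r ^ j) * 2 ^ j := by
      refine (h2.trans h1).trans (le_of_eq ?_)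
      rw [hA]; ring
    exact le_of_mul_le_mul_right h6 (by positivity)
  set J : ℕ := Nat.log 2 P with hJ
  have hcov : F ⊆ (range (J + 1)).biUnion G := by
    intro Z hZ
    rw [mem_biUnion]
    refine ⟨Nat.log 2 Z.card, ?_, mem_filter.2 ⟨hZ, rfl⟩⟩
    rw [mem_range]
    exact Nat.lt_succ_of_le (Nat.log_mono_right (hF Z hZ).2)
  have h1 : (F.card : ℝ) ≤ ∑ i ∈ range (J + 1), A * r ^ i := by
    have h2 : (F.card : ℝ) ≤ ((∑ i ∈ range (J + 1), (G i).card : ℕ) : ℝ) := by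
      exact_mod_cast (card_le_card hcov).trans card_biUnion_le
    refine h2.trans ?_
    push_cast
    exact sum_le_sum fun i _ => hGc i
  have h2 : r ^ J ≤ (P : ℝ) ^ e := by
    have h3 : (2 : ℝ) ^ J ≤ P := by
      have := Nat.pow_log_le_self 2 (show P ≠ 0 by omega)
      exact_mod_cast this
    calc r ^ J = ((2 : ℝ) ^ J) ^ e := by
          rw [hr, ← Real.rpow_natCast, ← Real.rpow_natCast, ← Real.rpow_mul (by norm_num),
            ← Real.rpow_mul (by norm_num), mul_comm]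
      _ ≤ (P : ℝ) ^ e := Real.rpow_le_rpow (by positivity) h3 he0.le
  have hr10 : 0 < r - 1 := by linarith
  calc (F.card : ℝ) ≤ ∑ i ∈ range (J + 1), A * r ^ i := h1
    _ = A * ((r ^ (J + 1) - 1) / (r - 1)) := by rw [← mul_sum, geom_sum_eq hr1.ne']
    _ ≤ A * (r * (P : ℝ) ^ e / (r - 1)) := by
        apply mul_le_mul_of_nonneg_left _ hA0.le
        apply div_le_div_of_nonneg_right _ hr10.le
        rw [pow_succ]
        nlinarith
    _ = A * (r / (r - 1)) * (P : ℝ) ^ e := by ring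

end Pool.Agent.TH926.OSC
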