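import Pool.Agent.H547R3.Osc3

set_option autoImplicit false

/-!
Cycles of the 3x+1 map with oscillation at most `B < 9`: the number of elements in a window.
-/

namespace Pool.Agent.TH926.OSC

open Finset Pool.Agent.H319R2 Pool.Agent.H547R3 Filter

/-- large windows -/
theorem window_bound0 {B γ' : ℝ} (hB3 : 3 ≤ B) (hB : Real.log B / Real.log 3 - 1 < γ') :
    ∃ C N0 : ℝ, 0 < C ∧ 1 ≤ N0 ∧ ∀ N : ℝ, N0 ≤ N → ∀ Z : Finset ℤ,
      (∀ x ∈ Z, ∀ j, T^[j] x ∈ Z) → (∀ x ∈ Z, N ≤ |(x : ℝ)| ∧ |(x : ℝ)| ≤ B * N) →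
      (Z.card : ℝ) ≤ C * N ^ γ' := by
  classical
  have hl2 : 0 < Real.log 2 := Real.log_pos (by norm_num)
  have hl3 : 0 < Real.log 3 := Real.log_pos (by norm_num)
  have hB0 : 0 < B := by linarith
  set δ : ℝ := Real.log B - Real.log 3 with hδ
  have hδ0 : 0 ≤ δ := by
    have := Real.log_le_log (by norm_num : (0 : ℝ) < 3) hB3
    rw [hδ]; linarith
  set κ : ℝ := γ' - δ / Real.log 3 with hκ
  have hκ0 : 0 < κ := by
    rw [hκ, hδ, sub_div, div_self hl3.ne']; linarith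
  set τ : ℝ := κ * Real.log 3 / 16 with hτdef
  have hτ : 0 < τ := by positivity
  obtain ⟨q, h, hq, hQ, hcop, hα⟩ := exists_approx (12 / κ)
  have hqr : (0 : ℝ) < q := by exact_mod_cast hq
  set r : ℝ := (δ / 2 + 2 * τ) / Real.log 3 with hr
  have hr0 : 0 < r := by positivity
  have h2r : 2 * r = δ / Real.log 3 + κ / 4 := by
    rw [hr, hτdef]; field_simp; ring
  have h3q : 3 / (q : ℝ) ≤ κ / 4 := by
    rw [div_le_iff₀ hκ0] at hQ
    rw [div_le_iff₀ hqr]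
    linarith
  set γ : ℝ := 2 * r + 3 / q with hγ
  have hγ0 : 0 < γ := by positivity
  have hγ1 : γ ≤ γ' := by
    rw [hγ, h2r]
    have : δ / Real.log 3 = γ' - κ := by rw [hκ]; ring
    linarith
  set c0 : ℝ := 2 * r * q + 3 with hc0
  have hc00 : 0 < c0 := by positivity
  -- the threshold
  have hlim : ∀ᶠ N : ℝ in atTop, Real.log (8 * B * N) / Real.log 2 ≤ 2 * N * τ ∧ 1 / (2 * N) ≤ τ ∧ 1 ≤ N := by
    have h1 : Tendsto (fun N : ℝ => Real.log (8 * B * N) / N) atTop (nhds 0) := by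
      have h2 : Tendsto (fun N : ℝ => Real.log (8 * B) / N + Real.log N / N) atTop (nhds (0 + 0)) := by
        apply Tendsto.add
        · exact Tendsto.div_atTop tendsto_const_nhds tendsto_id
        · have := Real.isLittleO_log_id_atTop.tendsto_div_nhds_zero
          exact this
      rw [add_zero] at h2
      refine h2.congr' ?_
      filter_upwards [eventually_gt_atTop 0] with N hN
      rw [Real.log_mul (x := 8 * B) (by positivity) hN.ne']
      ring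
    have h3 : ∀ᶠ N : ℝ in atTop, Real.log (8 * B * N) / N < 2 * τ * Real.log 2 :=
      h1.eventually (gt_mem_nhds (by positivity))
    filter_upwards [h3, eventually_ge_atTop (1 / (2 * τ)), eventually_ge_atTop 1] with N h4 h5 h6
    have hN0 : 0 < N := by linarith
    refine ⟨?_, ?_, h6⟩
    · rw [div_lt_iff₀ hN0] at h4
      rw [div_le_iff₀ hl2]
      linarith
    · rw [div_le_iff₀ (by positivity)] at h5 ⊢
      linarith
  obtain ⟨N0, hN0⟩ := eventually_atTop.1 hlim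
  refine ⟨(⌊Real.log B / τ⌋₊ + 1) * (2 ^ c0 * (8 * B) ^ γ), max N0 1, by positivity,
    le_max_right _ _, ?_⟩
  intro N hN Z hcl hZ
  obtain ⟨hk1, hNτ, hN1⟩ := hN0 N ((le_max_left _ _).trans hN)
  have hNpos : 0 < N := by linarith
  -- choose k
  set m : ℕ := ⌊2 * (B * N)⌋₊ with hm
  set k : ℕ := Nat.log 2 m + 1 with hk
  have hBN : 1 ≤ 2 * (B * N) := by nlinarith
  have hm0 : m ≠ 0 := by
    have : 1 ≤ m := Nat.one_le_floor_iff _ |>.2 hBN
    omega
  have hkup : 2 * (B * N) < 2 ^ k := by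
    have h1 := Nat.lt_pow_succ_log_self (b := 2) (by norm_num) m
    have h2 : m + 1 ≤ 2 ^ k := h1
    have h3 : 2 * (B * N) < m + 1 := Nat.lt_floor_add_one _
    have h4 : ((m + 1 : ℕ) : ℝ) ≤ ((2 ^ k : ℕ) : ℝ) := by exact_mod_cast h2
    push_cast at h4
    linarith
  have hklow : (2 : ℝ) ^ k ≤ 8 * B * N := by
    have h1 := Nat.pow_log_le_self 2 hm0
    have h3 : (m : ℝ) ≤ 2 * (B * N) := Nat.floor_le (by positivity)
    have h4 : ((2 ^ Nat.log 2 m : ℕ) : ℝ) ≤ (m : ℝ) := by exact_mod_cast h1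
    push_cast at h4
    rw [hk, pow_succ]
    nlinarith
  have hkN : (k : ℝ) / (2 * N) ≤ τ := by
    have h1 : (k : ℝ) * Real.log 2 ≤ Real.log (8 * B * N) := by
      rw [← Real.log_pow]
      exact Real.log_le_log (by positivity) hklow
    have h2 : (k : ℝ) ≤ Real.log (8 * B * N) / Real.log 2 := by rwa [le_div_iff₀ hl2]
    rw [div_le_iff₀ (by positivity)]
    linarith
  set K : ℕ := ⌊(k : ℝ) * γ + c0⌋₊ with hK
  have hVK : ∀ m, (V δ τ k m).card ≤ K := by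
    intro m
    have h1 := V_card hδ0 hτ hq hcop hα k m
    rw [hK]
    apply Nat.le_floor
    refine h1.trans (le_of_eq ?_)
    rw [← hr, hγ, hc0]
    field_simp
  have hcard := window_card hB3 hτ hN1 hkup hkN hNτ hcl hZ K hVK
  have hcard' : (Z.card : ℝ) ≤ (⌊Real.log B / τ⌋₊ + 1) * 2 ^ K := by exact_mod_cast hcard
  have hNγ : N ^ γ ≤ N ^ γ' := Real.rpow_le_rpow_of_exponent_le hN1 hγ1
  refine hcard'.trans ?_
  rw [mul_assoc]
  apply mul_le_mul_of_nonneg_left _ (by positivity)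
  have h1 : (2 : ℝ) ^ K ≤ 2 ^ ((k : ℝ) * γ + c0) := by
    rw [← Real.rpow_natCast]
    apply Real.rpow_le_rpow_of_exponent_le (by norm_num)
    exact Nat.floor_le (by positivity)
  refine h1.trans ?_
  rw [Real.rpow_add (by norm_num), Real.rpow_mul (by norm_num), Real.rpow_natCast]
  have h2 : ((2 : ℝ) ^ k) ^ γ ≤ (8 * B) ^ γ * N ^ γ := by
    rw [← Real.mul_rpow (by positivity) hNpos.le]
    exact Real.rpow_le_rpow (by positivity) hklow hγ0.le
  calc ((2 : ℝ) ^ k) ^ γ * 2 ^ c0 ≤ ((8 * B) ^ γ * N ^ γ) * 2 ^ c0 :=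
        mul_le_mul_of_nonneg_right h2 (by positivity)
    _ = 2 ^ c0 * (8 * B) ^ γ * N ^ γ := by ring
    _ ≤ 2 ^ c0 * (8 * B) ^ γ * N ^ γ' := mul_le_mul_of_nonneg_left hNγ (by positivity)

/-- all windows -/
theorem window_bound {B γ : ℝ} (hB3 : 3 ≤ B) (hB : Real.log B / Real.log 3 - 1 < γ) :
    ∃ C : ℝ, 0 < C ∧ ∀ N : ℝ, 1 ≤ N → ∀ Z : Finset ℤ,
      (∀ x ∈ Z, ∀ j, T^[j] x ∈ Z) → (∀ x ∈ Z, N ≤ |(x : ℝ)| ∧ |(x : ℝ)| ≤ B * N) →
      (Z.card : ℝ) ≤ C * N ^ γ := by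
  classical
  obtain ⟨C, N0, hC, hN0, h⟩ := window_bound0 hB3 hB
  have hl3 : 0 < Real.log 3 := Real.log_pos (by norm_num)
  have hγ0 : 0 < γ := by
    have h1 := Real.log_le_log (by norm_num : (0 : ℝ) < 3) hB3
    have h2 : 1 ≤ Real.log B / Real.log 3 := by rwa [le_div_iff₀ hl3, one_mul]
    linarith
  refine ⟨max C (2 * (B * N0) + 3), lt_max_of_lt_left hC, ?_⟩
  intro N hN Z hcl hZ
  have hNγ : 1 ≤ N ^ γ := Real.one_le_rpow hN hγ0.le
  rcases le_or_gt N0 N with hcase | hcase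
  · exact (h N hcase Z hcl hZ).trans
      (mul_le_mul_of_nonneg_right (le_max_left _ _) (by positivity))
  · have hsub : Z ⊆ Finset.Icc (-⌈B * N0⌉) ⌈B * N0⌉ := by
      intro x hx
      rw [Finset.mem_Icc, ← abs_le]
      have h1 : |(x : ℝ)| ≤ ((⌈B * N0⌉ : ℤ) : ℝ) := by
        refine (hZ x hx).2.trans (le_trans ?_ (Int.le_ceil _))
        nlinarith
      exact_mod_cast h1
    have h1 := card_le_card hsub
    rw [Int.card_Icc] at h1
    have h2 : 0 ≤ ⌈B * N0⌉ := Int.ceil_nonneg (by positivity)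
    have h3 : ((⌈B * N0⌉ + 1 - -⌈B * N0⌉).toNat : ℝ) = 2 * (⌈B * N0⌉ : ℝ) + 1 := by
      have : ((⌈B * N0⌉ + 1 - -⌈B * N0⌉).toNat : ℤ) = 2 * ⌈B * N0⌉ + 1 := by
        rw [Int.toNat_of_nonneg (by omega)]; ring
      exact_mod_cast this
    have h4 : (Z.card : ℝ) ≤ 2 * (⌈B * N0⌉ : ℝ) + 1 := by
      rw [← h3]; exact_mod_cast h1
    have h5 : (⌈B * N0⌉ : ℝ) < B * N0 + 1 := Int.ceil_lt_add_one _
    calc (Z.card : ℝ) ≤ 2 * (B * N0) + 3 := by linarith
      _ ≤ max C (2 * (B * N0) + 3) * 1 := by rw [mul_one]; exact le_max_right _ _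
      _ ≤ _ := mul_le_mul_of_nonneg_left hNγ (le_max_of_le_left hC.le)

end Pool.Agent.TH926.OSC
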